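import Pool.Agent.KS6_11.SpanW.BM

/-!
# Brownian span sets over all time windows simultaneously

Almost surely, the span set of Brownian motion over every generic time window is the closure of its
interior; every fixed window is almost surely generic; and almost surely there are exceptional
windows, in every interval of times, over which the span set is not the closure of its interior.
-/

open MeasureTheory ProbabilityTheory Filter Topology Set
open scoped ENNReal NNReal

namespace Pool.Agent.Results.MP_367e1f_pr.AllWindows

/-- The span set `{t - s : a ≤ s ≤ t ≤ b, f s = f t}` of a path over the time window `[a, b]`, as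
a subset of `ℝ`. -/
def spanSet (f : ℝ≥0 → ℝ) (a b : ℝ≥0) : Set ℝ :=
  {u | ∃ s t : ℝ≥0, a ≤ s ∧ s ≤ t ∧ t ≤ b ∧ f s = f t ∧ u = (t : ℝ) - s}

/-- The window `[a, b]` is generic for the path `f`: the values `f a` and `f b` are different, and
neither of them is the value of a local extremum of `f` at a time in `(a, b)`. -/
def GenericWindow (f : ℝ≥0 → ℝ) (a b : ℝ≥0) : Prop :=
  f a ≠ f b ∧ ∀ t, a < t → t < b → IsLocalExtr f t → f t ≠ f a ∧ f t ≠ f b

/-- Let `B` be a standard linear Brownian motion.
(1) Almost surely, for all generic windows `[a, b]` simultaneously, the span set of `B` over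
`[a, b]` is equal to the closure of its interior.
(2) Every fixed window `[a, b]` (in particular `[0, 1]`) is almost surely generic, and the span set
of `B` over it is almost surely equal to the closure of its interior.
(3) Almost surely, every interval `[p, q]` of times contains a window `[a, b]` such that the span
set of `B` over `[a, b]` is not equal to the closure of its interior. -/
theorem result {Ω : Type*} [MeasurableSpace Ω] {P : Measure Ω} {B : ℝ≥0 → Ω → ℝ}
    (hB : IsBrownianReal B P) :
    (∀ᵐ ω ∂P, ∀ a b : ℝ≥0, a < b → GenericWindow (fun t => B t ω) a b →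
      spanSet (fun t => B t ω) a b = closure (interior (spanSet (fun t => B t ω) a b))) ∧
    (∀ a b : ℝ≥0, a < b → ∀ᵐ ω ∂P, GenericWindow (fun t => B t ω) a b ∧
      spanSet (fun t => B t ω) a b = closure (interior (spanSet (fun t => B t ω) a b))) ∧
    (∀ᵐ ω ∂P, ∀ p q : ℝ≥0, p < q → ∃ a b : ℝ≥0, p ≤ a ∧ a < b ∧ b ≤ q ∧
      spanSet (fun t => B t ω) a b ≠ closure (interior (spanSet (fun t => B t ω) a b))) := by
  obtain ⟨B', hB', hBB'⟩ := Pool.Agent.R974.Span.good_version hB
  have hfun : ∀ ω, (∀ t, B' t ω = B t ω) → (fun t => B t ω) = fun t => B' t ω := fun ω h =>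
    funext fun t => (h t).symm
  refine ⟨?_, fun a b hab => ?_, ?_⟩
  · filter_upwards [hBB', Pool.Agent.KS6_11.SpanW.ae_all_windows hB'] with ω h1 h2
    rw [hfun ω h1]
    exact h2
  · filter_upwards [hBB', Pool.Agent.KS6_11.SpanW.ae_all_windows hB',
      Pool.Agent.KS6_11.SpanW.ae_generic hB' hab] with ω h1 h2 h3
    rw [hfun ω h1]
    exact ⟨h3, h2 a b hab h3⟩
  · filter_upwards [hBB', Pool.Agent.KS6_11.SpanW.ae_exceptional hB'] with ω h1 h2
    rw [hfun ω h1]
    exact h2

end Pool.Agent.Results.MP_367e1f_pr.AllWindows
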